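import Pool.Agent.WT59.Colour

/-!
THEOREM I (note 2812 of MP_e6151a_ag), for a triple `(p; k, p)`.  `T1` is the first block of a state such that every non-empty tight set
of `T1` contains `E \ T1`.  Then a class function `c` is constant on the states.

Proof: let `T0` be a block of the other colour which is closest to `T1`, `X = T0 ∪ T1`.  The largest tight set of `X` is empty.  By
`col_dep` the set of the elements of `X` missed by a block of the colour of `T0` inside `X` is dependent in `p`, so it is not a subset of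
`T1`.  This gives a closer block.
-/

set_option autoImplicit false

namespace Pool.Agent.TI26

open Finset Pool.Agent.DT3 Pool.Agent.CF98 Pool.Agent.WT59

variable {α : Type*} [DecidableEq α] {p k q : Finset α → ℕ} {E T T1 B1 C1 A B C : Finset α}
  {c : Finset α → Finset α → Finset α → Prop}

theorem quo_refl (p : Finset α → ℕ) (E : Finset α) : Quo p p E := fun _ _ _ _ h => h

/-- A block of colour `c` is equal to `T1`. -/
theorem center_aux (hp : RankFn p) (hk : RankFn k) (hc : Cls p k p E c) (hE : E.card = p E + k E + p E)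
    (h1 : St p k p E T1 B1 C1)
    (hirr : ∀ G ⊆ E, G.Nonempty → (G \ T1).card = k G + p G → E \ T1 ⊆ G)
    (hcol : Col p k p E c T) : Col p k p E c T1 := by
  classical
  obtain ⟨T0, hT0, hmin⟩ := exists_min_image (E.powerset.filter fun b => Col p k p E c b)
    (fun b => (b \ T1).card) ⟨T, by
      rw [mem_filter, mem_powerset]
      obtain ⟨B, C, h, _⟩ := id hcol
      exact ⟨h.subA, hcol⟩⟩
  rw [mem_filter, mem_powerset] at hT0
  obtain ⟨hT0E, B0, C0, hs0, hc0⟩ := hT0
  have hmin' : ∀ b, Col p k p E c b → (T0 \ T1).card ≤ (b \ T1).card := by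
    intro b hb
    refine hmin b ?_
    rw [mem_filter, mem_powerset]
    obtain ⟨B, C, h, _⟩ := id hb
    exact ⟨h.subA, hb⟩
  rcases (T0 \ T1).eq_empty_or_nonempty with h0 | h0
  · rw [sdiff_eq_empty_iff_subset] at h0
    have h2 : T0 = T1 := eq_of_subset_of_card_le h0 (by rw [hs0.ca, h1.ca])
    rw [← h2]
    exact ⟨B0, C0, hs0, hc0⟩
  exfalso
  set X := T0 ∪ T1 with hX
  have hT1E : T1 ⊆ E := h1.subA
  have hXE : X ⊆ E := union_subset hT0E hT1E
  have hXc : p E + 1 ≤ X.card := by
    have h2 : X.card = (T0 \ T1).card + T1.card := by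
      rw [hX, ← card_union_of_disjoint sdiff_disjoint, sdiff_union_self_eq_union]
    have h3 := h0.card_pos
    have h4 := h1.ca
    omega
  have hOk1 : Ok k p E T1 := st_ok hk hp h1
  have hOkX : Ok k p E X := ok_sub hOk1 subset_union_right
  have hFE : FF k p E X ⊆ E := FF_sub
  have hFt : Ti k p X (FF k p E X) := FF_ti hk hp hOkX
  have hF : FF k p E X = ∅ := by
    by_contra hne
    rw [← ne_eq, ← nonempty_iff_ne_empty] at hne
    have h2 : (FF k p E X \ X).card ≤ (FF k p E X \ T1).card :=
      card_le_card (sdiff_subset_sdiff (Subset.refl _) subset_union_right)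
    have h3 := hOk1 _ hFE
    unfold Ti at hFt
    have h4 : (FF k p E X \ T1).card = k (FF k p E X) + p (FF k p E X) := by omega
    have h5 := hirr _ hFE hne h4
    have h6 : FF k p E X \ X = FF k p E X \ T1 :=
      eq_of_subset_of_card_le (sdiff_subset_sdiff (Subset.refl _) subset_union_right) (by omega)
    obtain ⟨x, hx⟩ := h0
    have h7 : x ∈ FF k p E X \ T1 :=
      mem_sdiff.2 ⟨h5 (mem_sdiff.2 ⟨hT0E (mem_sdiff.1 hx).1, (mem_sdiff.1 hx).2⟩), (mem_sdiff.1 hx).2⟩
    rw [← h6] at h7
    exact (mem_sdiff.1 h7).2 (mem_union_left _ (mem_sdiff.1 hx).1)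
  have hdep := col_dep (p := p) (k := k) (q := p) (E := E) (S := X) (c := c) hp hk hp (quo_refl p E) hc hE hXE
    hXc ⟨T0, ⟨B0, C0, hs0, hc0⟩, subset_union_left⟩
  rw [hF, empty_union, hp.empty, zero_add] at hdep
  have hsub : US (Col p k p E c) X ⊆ T1 := by
    intro x hx
    obtain ⟨hxX, b, hb, hbX, hxb⟩ := mem_filter.1 hx
    by_contra hxT
    have hx0 : x ∈ T0 := by
      rcases mem_union.1 hxX with h | h
      · exact h
      · exact absurd h hxT
    have h2 := hmin' b hb
    have h3 : b \ T1 ⊆ (T0 \ T1).erase x := by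
      intro z hz
      obtain ⟨hz1, hz2⟩ := mem_sdiff.1 hz
      refine mem_erase.2 ⟨fun e => hxb (e ▸ hz1), mem_sdiff.2 ⟨?_, hz2⟩⟩
      rcases mem_union.1 (hbX hz1) with h | h
      · exact h
      · exact absurd h hz2
    have h4 := card_le_card h3
    rw [card_erase_of_mem (mem_sdiff.2 ⟨hx0, hxT⟩)] at h4
    have h5 := h0.card_pos
    omega
  have hind : p (US (Col p k p E c) X) = (US (Col p k p E c) X).card :=
    ind_sub hp (by rw [h1.ra, h1.ca]) hsub
  omega

/-- THEOREM I. -/
theorem center (hp : RankFn p) (hk : RankFn k) (hc : Cls p k p E c) (hE : E.card = p E + k E + p E)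
    (h1 : St p k p E T1 B1 C1)
    (hirr : ∀ G ⊆ E, G.Nonempty → (G \ T1).card = k G + p G → E \ T1 ⊆ G)
    (h : St p k p E A B C) : c A B C ↔ c T1 B1 C1 := by
  constructor
  · intro hA
    obtain ⟨B', C', h2, h3⟩ := center_aux hp hk hc hE h1 hirr ⟨B, C, h, hA⟩
    exact (hc.sa _ _ _ _ _ h2 h1).1 h3
  · intro h2
    by_contra hA
    obtain ⟨B', C', h3, h4⟩ := center_aux hp hk hc.neg hE h1 hirr ⟨B, C, h, hA⟩
    exact h4 ((hc.sa _ _ _ _ _ h1 h3).1 h2)

end Pool.Agent.TI26
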